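import Pool.Agent.H261R3.LN.Stmts

set_option autoImplicit false

namespace Pool.Agent.H482.LN

open Pool.Agent.H261R3.LN
open Pool.Agent.H261R3.LH (Lip1 IsLNR clip clip_nonneg)

theorem taskWall0 : TaskWall0 := by
  intro S _ p q C
  refine ⟨max C 0, le_max_right _ _, fun f hx hu hb => ⟨fun _ x u => f x u, ?_, ?_⟩⟩
  · refine ⟨?_, ?_, ?_, ?_, ?_⟩
    · intro t u x y
      exact (hx u x y).trans (mul_le_mul_of_nonneg_right (le_max_left _ _) dist_nonneg)
    · intro t x u v
      exact (hu x u v).trans (mul_le_mul_of_nonneg_right (le_max_left _ _) dist_nonneg)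
    · intro x u s t
      simp only [dist_self]
      positivity
    · intro t x u h
      exact hb x u h
    · intro x u _
      rfl
  · intro x u i
    exact i.elim0

end Pool.Agent.H482.LN
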